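import Mathlib
import Pool.Agent.shai.AutoCont
import Pool.Agent.shai.Main

/-! Every surjective algebra homomorphism from the bounded operators on `C(βΓ)`, `Γ` discrete,
onto the bounded operators on a non-zero Banach space is injective. -/

open scoped ENNReal
open Cardinal

namespace Pool.Agent.Shai

universe u v

/-- The bounded functions on an arbitrary set have the SHAI property. -/
theorem shai_LI {𝕜 : Type*} [RCLike 𝕜] {Γ : Type u} {Y : Type v} [NormedAddCommGroup Y]
    [NormedSpace 𝕜 Y] [CompleteSpace Y] [Nontrivial Y]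
    (ψ : (LI 𝕜 Γ →L[𝕜] LI 𝕜 Γ) →ₙₐ[𝕜] (Y →L[𝕜] Y)) (hψ : Function.Surjective ψ) :
    Function.Injective ψ := by
  classical
  rw [injective_iff_map_eq_zero]
  intro T hT
  by_contra hT0
  obtain ⟨x, i, hx⟩ : ∃ x i, T x i ≠ 0 := by
    by_contra hcon
    push Not at hcon
    exact hT0 (LI.opExt hcon)
  obtain ⟨C, hC, hbd⟩ := autoCont ψ hψ
  have hone := map_one_of_surj ψ hψ
  have hsing : ∀ γ : Γ, ψ (mulI 𝕜 {γ}) = 0 := by
    intro γ
    let R : LI 𝕜 Γ →L[𝕜] LI 𝕜 Γ := wc (fun _ => i) (fun j => if j = γ then (1 : 𝕜) else 0) (by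
      intro j
      by_cases h : j = γ <;> simp [h])
    let L : LI 𝕜 Γ →L[𝕜] LI 𝕜 Γ := (ev 𝕜 γ).smulRight x
    have h1 : (T x i)⁻¹ • (R * (T * L)) = mulI 𝕜 {γ} := by
      apply LI.opExt
      intro z j
      change (T x i)⁻¹ * (R (T (z γ • x)) j) = _
      rw [map_smul, map_smul, LI.smul_apply, wc_apply, mulI_apply]
      by_cases h : j = γ
      · subst h
        simp only [if_true, one_mul, Set.mem_singleton_iff]
        field_simp
      · simp [h]
    rw [← h1, map_smul, map_mul, map_mul, hT, zero_mul, mul_zero, smul_zero]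
  have hne1 : ψ (mulI 𝕜 (Set.univ : Set Γ)) ≠ 0 := by
    rw [mulI_univ, hone]
    exact one_ne_zero
  obtain ⟨A0, hA0, hmin⟩ := WellFounded.has_min (InvImage.wf (fun A : Set Γ => #A) Cardinal.lt_wf)
    {A : Set Γ | ψ (mulI 𝕜 A) ≠ 0} ⟨Set.univ, hne1⟩
  have hmin' : ∀ A : Set Γ, #A < #A0 → ψ (mulI 𝕜 A) = 0 := by
    intro A hA
    by_contra hcon
    exact hmin A hcon hA
  have hA0' : ψ (mulI 𝕜 A0) ≠ 0 := hA0
  have hinf : ℵ₀ ≤ #A0 := by
    rw [← infinite_iff]
    by_contra hfin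
    rw [not_infinite_iff_finite] at hfin
    have hA0fin : A0.Finite := hfin
    apply hA0'
    refine Set.Finite.induction_on (motive := fun A _ => ψ (mulI 𝕜 A) = 0) A0 hA0fin ?_ ?_
    · have h1 : mulI 𝕜 (∅ : Set Γ) = 0 := by
        apply LI.opExt
        intro z j
        change mulI 𝕜 ∅ z j = 0
        simp [mulI_apply]
      rw [h1, map_zero]
    · intro a A ha _ ih
      have h1 : Disjoint {a} A := by
        rw [Set.disjoint_singleton_left]
        exact ha
      rw [Set.insert_eq, mulI_union_disj h1, map_add, hsing, ih, add_zero]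
  have hne : Nonempty A0 := by
    rw [← mk_ne_zero_iff]
    intro h
    rw [h] at hinf
    exact absurd hinf (not_le.mpr aleph0_pos)
  obtain ⟨a0⟩ := hne
  -- extension by zero and restriction
  let ι : LI 𝕜 A0 →L[𝕜] LI 𝕜 Γ := wc (fun γ => if h : γ ∈ A0 then ⟨γ, h⟩ else a0)
    (fun γ => if γ ∈ A0 then (1 : 𝕜) else 0) (ind_le 𝕜 A0)
  let ρ : LI 𝕜 Γ →L[𝕜] LI 𝕜 A0 := wc Subtype.val (fun _ => (1 : 𝕜)) norm_one_le
  have hρι : ρ ∘L ι = ContinuousLinearMap.id 𝕜 (LI 𝕜 A0) := by
    apply LI.opExt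
    intro z j
    change ρ (ι z) j = z j
    simp [ρ, ι]
  have hρι' : ∀ z, ρ (ι z) = z := fun z => by
    have := congrArg (fun S => S z) hρι
    exact this
  have hιρ : ι ∘L ρ = mulI 𝕜 A0 := by
    apply LI.opExt
    intro z j
    change ι (ρ z) j = mulI 𝕜 A0 z j
    rw [mulI_apply]
    by_cases h : j ∈ A0 <;> simp [ρ, ι, h]
  let Ψ : (LI 𝕜 A0 →L[𝕜] LI 𝕜 A0) →ₙₐ[𝕜] (Y →L[𝕜] Y) :=
    { toFun := fun S => ψ (ι ∘L S ∘L ρ)
      map_smul' := by
        intro c S
        have h1 : ι ∘L (c • S) ∘L ρ = c • (ι ∘L S ∘L ρ) := by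
          apply ContinuousLinearMap.ext
          intro z
          change ι (c • S (ρ z)) = c • ι (S (ρ z))
          rw [map_smul]
        rw [h1, map_smul]
        rfl
      map_zero' := by
        have h1 : ι ∘L (0 : LI 𝕜 A0 →L[𝕜] LI 𝕜 A0) ∘L ρ = 0 := by
          apply ContinuousLinearMap.ext
          intro z
          change ι 0 = 0
          rw [map_zero]
        rw [h1, map_zero]
      map_add' := by
        intro S T
        have h1 : ι ∘L (S + T) ∘L ρ = ι ∘L S ∘L ρ + ι ∘L T ∘L ρ := by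
          apply ContinuousLinearMap.ext
          intro z
          change ι (S (ρ z) + T (ρ z)) = ι (S (ρ z)) + ι (T (ρ z))
          rw [map_add]
        rw [h1, map_add]
      map_mul' := by
        intro S T
        have h1 : ι ∘L (S * T) ∘L ρ = (ι ∘L S ∘L ρ) * (ι ∘L T ∘L ρ) := by
          apply ContinuousLinearMap.ext
          intro z
          change ι (S (T (ρ z))) = ι (S (ρ (ι (T (ρ z)))))
          rw [hρι']
        rw [h1, map_mul] }
  have hΨ : ∀ S, Ψ S = ψ (ι ∘L S ∘L ρ) := fun S => rfl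
  have hΨ1 : Ψ 1 = ψ (mulI 𝕜 A0) := by
    rw [hΨ, ← hιρ]
    rfl
  apply rel_false (𝕜 := 𝕜) hinf Ψ C hC
  · intro S
    have h1 : ‖ι ∘L S ∘L ρ‖ ≤ ‖S‖ := by
      have hι : ‖ι‖ ≤ 1 := norm_wc_le _ _ _
      have hρ : ‖ρ‖ ≤ 1 := norm_wc_le _ _ _
      calc ‖ι ∘L S ∘L ρ‖ ≤ ‖ι‖ * ‖S ∘L ρ‖ := ContinuousLinearMap.opNorm_comp_le _ _
        _ ≤ 1 * (‖S‖ * 1) := by
          apply mul_le_mul hι _ (norm_nonneg _) zero_le_one
          exact (ContinuousLinearMap.opNorm_comp_le _ _).trans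
            (mul_le_mul_of_nonneg_left hρ (norm_nonneg _))
        _ = ‖S‖ := by ring
    exact (hbd _).trans (mul_le_mul_of_nonneg_left h1 hC.le)
  · rw [hΨ1]
    exact hA0'
  · intro A hA
    have h1 : ι ∘L mulI 𝕜 A ∘L ρ = mulI 𝕜 (Subtype.val '' A) := by
      apply LI.opExt
      intro z j
      change ι (mulI 𝕜 A (ρ z)) j = mulI 𝕜 (Subtype.val '' A) z j
      by_cases h : j ∈ A0
      · by_cases h2 : (⟨j, h⟩ : A0) ∈ A
        · have h3 : j ∈ Subtype.val '' A := ⟨⟨j, h⟩, h2, rfl⟩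
          rw [mulI_apply_mem _ h3]
          simp [ι, h, mulI_apply, h2, ρ]
        · have h3 : j ∉ Subtype.val '' A := by
            rintro ⟨⟨j', h'⟩, h4, rfl⟩
            exact h2 h4
          rw [mulI_apply_not_mem _ h3]
          simp [ι, h, mulI_apply, h2]
      · have h3 : j ∉ Subtype.val '' A := by
          rintro ⟨⟨j', h'⟩, h4, rfl⟩
          exact h h'
        rw [mulI_apply_not_mem _ h3]
        simp [ι, h]
    rw [hΨ, h1]
    apply hmin'
    rw [mk_image_eq Subtype.val_injective]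
    exact hA
  · intro T' hT'
    obtain ⟨E0, hE0⟩ := hψ T'
    refine ⟨ρ ∘L E0 ∘L ι, ?_⟩
    rw [hΨ]
    have h1 : ι ∘L (ρ ∘L E0 ∘L ι) ∘L ρ = (ι ∘L ρ) * (E0 * (ι ∘L ρ)) := rfl
    rw [h1, hιρ, map_mul, map_mul, hE0, ← hΨ1, ← mul_assoc, hT']

/-- The SHAI property passes through isomorphisms. -/
theorem transfer {𝕜 : Type*} [RCLike 𝕜] {X₁ X₂ : Type*} [NormedAddCommGroup X₁]
    [NormedSpace 𝕜 X₁] [NormedAddCommGroup X₂] [NormedSpace 𝕜 X₂] (e : X₁ ≃L[𝕜] X₂)
    {Y : Type v} [NormedAddCommGroup Y] [NormedSpace 𝕜 Y]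
    (h : ∀ ψ : (X₂ →L[𝕜] X₂) →ₙₐ[𝕜] (Y →L[𝕜] Y), Function.Surjective ψ → Function.Injective ψ)
    (ψ : (X₁ →L[𝕜] X₁) →ₙₐ[𝕜] (Y →L[𝕜] Y)) (hψ : Function.Surjective ψ) :
    Function.Injective ψ := by
  let c : (X₂ →L[𝕜] X₂) → (X₁ →L[𝕜] X₁) := fun S =>
    (e.symm : X₂ →L[𝕜] X₁) ∘L S ∘L (e : X₁ →L[𝕜] X₂)
  let d : (X₁ →L[𝕜] X₁) → (X₂ →L[𝕜] X₂) := fun S =>
    (e : X₁ →L[𝕜] X₂) ∘L S ∘L (e.symm : X₂ →L[𝕜] X₁)
  have hcd : ∀ S, c (d S) = S := by
    intro S
    apply ContinuousLinearMap.ext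
    intro z
    change e.symm (e (S (e.symm (e z)))) = S z
    simp
  let φ : (X₂ →L[𝕜] X₂) →ₙₐ[𝕜] (Y →L[𝕜] Y) :=
    { toFun := fun S => ψ (c S)
      map_smul' := by
        intro a S
        have h1 : c (a • S) = a • c S := by
          apply ContinuousLinearMap.ext
          intro z
          change e.symm (a • S (e z)) = a • e.symm (S (e z))
          rw [map_smul]
        rw [h1, map_smul]
        rfl
      map_zero' := by
        have h1 : c 0 = 0 := by
          apply ContinuousLinearMap.ext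
          intro z
          change e.symm 0 = 0
          rw [map_zero]
        rw [h1, map_zero]
      map_add' := by
        intro S T
        have h1 : c (S + T) = c S + c T := by
          apply ContinuousLinearMap.ext
          intro z
          change e.symm (S (e z) + T (e z)) = e.symm (S (e z)) + e.symm (T (e z))
          rw [map_add]
        rw [h1, map_add]
      map_mul' := by
        intro S T
        have h1 : c (S * T) = c S * c T := by
          apply ContinuousLinearMap.ext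
          intro z
          change e.symm (S (T (e z))) = e.symm (S (e (e.symm (T (e z)))))
          simp
        rw [h1, map_mul] }
  have hφ : Function.Surjective φ := by
    intro T
    obtain ⟨S, hS⟩ := hψ T
    refine ⟨d S, ?_⟩
    change ψ (c (d S)) = T
    rw [hcd, hS]
  have hinj := h φ hφ
  intro S T hST
  have h1 : φ (d S) = φ (d T) := by
    change ψ (c (d S)) = ψ (c (d T))
    rw [hcd, hcd, hST]
  have h2 := hinj h1
  rw [← hcd S, ← hcd T, h2]

/-- Restriction to the discrete set, as a continuous linear map. -/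
noncomputable def restr (𝕜 : Type*) [RCLike 𝕜] (Γ : Type u) [TopologicalSpace Γ] :
    C(StoneCech Γ, 𝕜) →L[𝕜] LI 𝕜 Γ :=
  LinearMap.mkContinuous
    { toFun := fun f => LI.mk (fun γ => f (stoneCechUnit γ)) ‖f‖ (fun γ => f.norm_coe_le_norm _)
      map_add' := by
        intro f g
        apply LI.ext
        intro i
        simp
      map_smul' := by
        intro c f
        apply LI.ext
        intro i
        simp } 1 (by
      intro f
      rw [one_mul]
      exact LI.norm_mk_le _ (norm_nonneg _) (fun γ => f.norm_coe_le_norm _))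

theorem restr_apply (𝕜 : Type*) [RCLike 𝕜] (Γ : Type u) [TopologicalSpace Γ]
    (f : C(StoneCech Γ, 𝕜)) (γ : Γ) : restr 𝕜 Γ f γ = f (stoneCechUnit γ) := rfl

theorem restr_inj (𝕜 : Type*) [RCLike 𝕜] (Γ : Type u) [TopologicalSpace Γ] :
    Function.Injective (restr 𝕜 Γ) := by
  intro f g hfg
  have h1 : (f : StoneCech Γ → 𝕜) ∘ stoneCechUnit = g ∘ stoneCechUnit := by
    funext γ
    change f (stoneCechUnit γ) = g (stoneCechUnit γ)
    rw [← restr_apply, ← restr_apply, hfg]
  have h2 := denseRange_stoneCechUnit.equalizer f.continuous g.continuous h1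
  exact ContinuousMap.ext fun z => congrFun h2 z

theorem restr_surj (𝕜 : Type*) [RCLike 𝕜] (Γ : Type u) [TopologicalSpace Γ]
    [DiscreteTopology Γ] : Function.Surjective (restr 𝕜 Γ) := by
  intro g
  let h : Γ → Metric.closedBall (0 : 𝕜) ‖g‖ := fun γ =>
    ⟨g γ, by rw [mem_closedBall_zero_iff]; exact LI.norm_apply_le g γ⟩
  have hc : Continuous h := continuous_of_discreteTopology
  have hcomp : CompactSpace (Metric.closedBall (0 : 𝕜) ‖g‖) :=
    isCompact_iff_compactSpace.mp (isCompact_closedBall _ _)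
  refine ⟨⟨fun z => ((stoneCechExtend hc z : Metric.closedBall (0 : 𝕜) ‖g‖) : 𝕜),
    continuous_subtype_val.comp (continuous_stoneCechExtend hc)⟩, ?_⟩
  apply LI.ext
  intro γ
  rw [restr_apply]
  change ((stoneCechExtend hc (stoneCechUnit γ) : Metric.closedBall (0 : 𝕜) ‖g‖) : 𝕜) = g γ
  have h1 := congrFun (stoneCechExtend_extends hc) γ
  change stoneCechExtend hc (stoneCechUnit γ) = h γ at h1
  rw [h1]

end Pool.Agent.Shai

namespace Pool.Agent.Results.MP_df090f_an.SHAIStoneCech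

universe u v w

/-- For every discrete space `Γ`, every surjective algebra homomorphism from the bounded operators
on `C(βΓ)` onto the bounded operators on a non-zero Banach space `Y` is injective. -/
theorem result {𝕜 : Type w} [RCLike 𝕜] {Γ : Type u} [TopologicalSpace Γ] [DiscreteTopology Γ]
    {Y : Type v} [NormedAddCommGroup Y] [NormedSpace 𝕜 Y] [CompleteSpace Y] [Nontrivial Y]
    (ψ : (C(StoneCech Γ, 𝕜) →L[𝕜] C(StoneCech Γ, 𝕜)) →ₙₐ[𝕜] (Y →L[𝕜] Y))
    (hψ : Function.Surjective ψ) : Function.Injective ψ := by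
  have e : C(StoneCech Γ, 𝕜) ≃L[𝕜] Pool.Agent.Shai.LI 𝕜 Γ :=
    ContinuousLinearEquiv.ofBijective (Pool.Agent.Shai.restr 𝕜 Γ)
      (LinearMap.ker_eq_bot.mpr (Pool.Agent.Shai.restr_inj 𝕜 Γ))
      (LinearMap.range_eq_top.mpr (Pool.Agent.Shai.restr_surj 𝕜 Γ))
  exact Pool.Agent.Shai.transfer e (fun φ hφ => Pool.Agent.Shai.shai_LI φ hφ) ψ hψ

end Pool.Agent.Results.MP_df090f_an.SHAIStoneCech
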